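import Pool.Agent.H583R2.Expo
import Pool.Agent.NPC.Classes

/-!
# Tools: polynomial-time functions on strings
-/

set_option autoImplicit false

namespace Pool.Agent.V8H41.SP

open Turing Pool.Agent.H583R2
open Pool.Agent.NPC (pairBits InNP PolyTime)

section
variable {α β γ : Type} [TEnc α] [TEnc β] [TEnc γ]

theorem flatMap_eq (x : List Bool) :
    x.flatMap (fun b => [true, b]) = x.foldr (fun b s => true :: b :: s) [] := by
  induction x with
  | nil => rfl
  | cons b x ih => rw [List.flatMap_cons, List.foldr_cons, ih]; rfl

theorem pf_pairBits {x w : α → List Bool} (hx : PF x) (hw : PF w) :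
    PF (fun a => pairBits (x a) (w a)) := by
  have h := PF.foldrAdd (l := x) (s := fun _ => ([] : List Bool))
    (f := fun _ b s => true :: b :: s) hx (PF.const [])
    (PF.cons (PF.const true) (PF.cons (PF.fst.comp PF.snd) (PF.snd.comp PF.snd)))
    (inc := fun _ => 8) (bnd := fun _ => 0) (PB.const 8) (PB.const 0) (by
      intro a b hb st
      have := sz_bool b
      rw [sz_cons, sz_cons, sz_true]
      exact le_max_of_le_left (by omega))
  refine (PF.append h (PF.cons (PF.const false) hw)).congr fun a => ?_
  show _ = (x a).flatMap (fun b => [true, b]) ++ false :: w a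
  rw [flatMap_eq]

/-- One step of the decoding of pairs. -/
def ust (s : ℕ × List Bool × List Bool) (b : Bool) : ℕ × List Bool × List Bool :=
  if decide (s.1 = 0) then (if b then (1, s.2) else (2, s.2))
  else if decide (s.1 = 1) then (0, b :: s.2.1, s.2.2) else (2, s.2.1, b :: s.2.2)

/-- Decoding of pairs. -/
def up (z : List Bool) : List Bool × List Bool :=
  ((z.foldl ust (0, [], [])).2.1.reverse, (z.foldl ust (0, [], [])).2.2.reverse)

theorem up_pairBits (x w : List Bool) : up (pairBits x w) = (x, w) := by
  have h1 : ∀ (w u v : List Bool), w.foldl ust (2, u, v) = (2, u, w.reverse ++ v) := by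
    intro w
    induction w with
    | nil => intro u v; rfl
    | cons b w ih =>
      intro u v
      rw [List.foldl_cons]
      show w.foldl ust (2, u, b :: v) = _
      rw [ih]
      simp
  have h2 : ∀ (x u : List Bool), (x.flatMap (fun b => [true, b])).foldl ust (0, u, []) =
      (0, x.reverse ++ u, []) := by
    intro x
    induction x with
    | nil => intro u; rfl
    | cons b x ih =>
      intro u
      rw [List.flatMap_cons, List.foldl_append]
      show (x.flatMap (fun b => [true, b])).foldl ust (0, b :: u, []) = _
      rw [ih]
      simp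
  have h3 : (pairBits x w).foldl ust (0, [], []) = (2, x.reverse, w.reverse) := by
    unfold pairBits
    rw [List.foldl_append, h2, List.foldl_cons]
    show w.foldl ust (2, x.reverse ++ [], []) = _
    rw [h1]
    simp
  unfold up
  rw [h3]
  simp

theorem pf_ust : PF (fun p : (ℕ × List Bool × List Bool) × Bool => ust p.1 p.2) := by
  have hs1 : PF (fun p : (ℕ × List Bool × List Bool) × Bool => p.1.1) := PF.fst' PF.fst
  have hs2 : PF (fun p : (ℕ × List Bool × List Bool) × Bool => p.1.2) := PF.snd' PF.fst
  exact PF.ite (PF.natEq hs1 (PF.const 0))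
    (PF.ite PF.snd (PF.pair (PF.const 1) hs2) (PF.pair (PF.const 2) hs2))
    (PF.ite (PF.natEq hs1 (PF.const 1))
      (PF.pair (PF.const 0) (PF.pair (PF.cons PF.snd (PF.fst' hs2)) (PF.snd' hs2)))
      (PF.pair (PF.const 2) (PF.pair (PF.fst' hs2) (PF.cons PF.snd (PF.snd' hs2)))))

theorem pf_up {z : α → List Bool} (hz : PF z) : PF (fun a => up (z a)) := by
  have h := PF.foldlAdd (l := z) (s := fun _ => ((0 : ℕ), ([] : List Bool), ([] : List Bool)))
    (f := fun _ s b => ust s b) hz (PF.const _)
    (pf_ust.comp PF.snd) (inc := fun _ => 8) (bnd := fun _ => 0) (PB.const 8) (PB.const 0) (by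
      rintro a b hb ⟨m, u, v⟩
      refine le_max_of_le_left ?_
      have hb := sz_bool b
      unfold ust
      split_ifs <;> simp only [sz_pair, sz_cons, sz_nat] <;> omega)
  exact PF.pair (PF.reverse (PF.fst' (PF.snd' h))) (PF.reverse (PF.snd' (PF.snd' h)))

theorem pf_eval {n : α → ℕ} (hn : PF n) (p : Polynomial ℕ) : PF (fun a => p.eval (n a)) := by
  induction p using Polynomial.induction_on' with
  | add p q hp hq =>
    refine (PF.add hp hq).congr fun a => ?_
    rw [Polynomial.eval_add]
  | monomial k c =>
    refine (PF.mul (PF.const c) (pf_powConst hn k)).congr fun a => ?_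
    rw [Polynomial.eval_monomial]

theorem set_len : ∀ (s : List (List ℕ)) (k : ℕ) (v : List ℕ) (m : ℕ),
    v.length ≤ (s.getD k []).length + m →
    ((s.set k v).map List.length).sum ≤ (s.map List.length).sum + m := by
  intro s
  induction s with
  | nil => intro k v m _; simp
  | cons u s ih =>
    intro k v m h
    cases k with
    | zero =>
      simp only [List.getD_cons_zero] at h
      simp only [List.set_cons_zero, List.map_cons, List.sum_cons]
      omega
    | succ k =>
      simp only [List.getD_cons_succ] at h
      have := ih k v m h
      simp only [List.set_cons_succ, List.map_cons, List.sum_cons]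
      omega

/-- The length of the output of the universal simulation. -/
theorem stk_len (I : List Ins) (c : UCfg) :
    (((stepU I c).2).map List.length).sum ≤ (c.2.map List.length).sum + 1 := by
  unfold stepU
  rcases I[c.1]? with _ | ins
  · simp
  · simp only [stepI]
    have h1 := set_len c.2 ins.1 (c.2.getD ins.1 []).tail 0 (by simp)
    generalize (ins.2.getD (symIx (c.2.getD ins.1 []).head?) (0, 0, 0)) = e
    generalize c.2.set ins.1 (c.2.getD ins.1 []).tail = s at *
    have h2 := set_len s e.1 (e.2.1 :: s.getD e.1 []) 1 (by simp)
    omega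

theorem U_len {cd : Code} {x y : List Bool} {t : ℕ} (h : U cd x t = some y) :
    y.length ≤ x.length + t := by
  have h1 : ∀ t, ((runU cd x t).2.map List.length).sum ≤ x.length + t := by
    intro t
    induction t with
    | zero =>
      show ((initU cd x).2.map List.length).sum ≤ _
      unfold initU
      refine (set_len _ _ _ x.length (by rw [List.length_map]; exact Nat.le_add_left _ _)).trans ?_
      simp
    | succ t ih =>
      unfold runU at ih ⊢
      rw [Function.iterate_succ_apply']
      have := stk_len cd.1 ((stepU cd.1)^[t] (initU cd x))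
      omega
  unfold U at h
  split_ifs at h
  obtain rfl := Option.some.inj h
  rw [List.length_map]
  have h2 : ∀ (s : List (List ℕ)) (k : ℕ), (s.getD k []).length ≤ (s.map List.length).sum := by
    intro s
    induction s with
    | nil => intro k; simp
    | cons u s ih =>
      intro k
      cases k with
      | zero => simp
      | succ k =>
        have := ih k
        simp only [List.getD_cons_succ, List.map_cons, List.sum_cons]
        omega
  exact (h2 _ _).trans (h1 t)

theorem pf_of_polyTime {f : List Bool → List Bool} (hf : PolyTime f) : PF f := by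
  obtain ⟨M⟩ := hf
  obtain ⟨cd, m, h⟩ := code_of_tm M.toTM2ComputableInTime
  have h1 : PF (fun x : List Bool => gv cd x (m * M.time.eval x.length)) :=
    pf_gv (PF.const cd) PF.id (PF.mul (PF.const m) (pf_eval (PF.length PF.id) M.time))
  refine h1.congr fun x => ?_
  unfold gv
  rw [h x (m * M.time.eval x.length) le_rfl]
  rfl

theorem polyTime_of_pf {f : List Bool → List Bool} (hf : PF f) : PolyTime f := by
  obtain ⟨c, M, hM⟩ := tm_of_PF hf
  exact ⟨{ tm := M.tm
           inputAlphabet := M.inputAlphabet
           outputAlphabet := M.outputAlphabet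
           time := Polynomial.X ^ c + Polynomial.C c
           outputsFun := fun a => ⟨(M.outputsFun a).toEvalsTo,
             ((M.outputsFun a).steps_le_m).trans ((hM _).trans (by simp))⟩ }⟩

end

end Pool.Agent.V8H41.SP
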