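import Pool.Agent.V8H41.SP.Lang

/-!
# The diagonal argument
-/

set_option autoImplicit false

namespace Pool.Agent.V8H41.SP

open Turing Pool.Agent.H583R2
open Pool.Agent.NPC (pairBits InNP PolyTime)

/-- The function is computed in time `c (n + 1) ^ k`. -/
def InTime (k c : ℕ) (D : List Bool → List Bool) : Prop :=
  ∃ M : TM2ComputableInTime (id : List Bool → List Bool) (id : List Bool → List Bool) D,
    ∀ n, M.time n ≤ c * (n + 1) ^ k

theorem pairBits_length (x w : List Bool) : (pairBits x w).length = 2 * x.length + 1 + w.length := by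
  unfold pairBits
  rw [List.length_append, List.length_cons]
  have : (x.flatMap (fun b => [true, b])).length = 2 * x.length := by
    induction x with
    | nil => rfl
    | cons b x ih =>
      rw [List.flatMap_cons, List.length_append, ih]
      simp only [List.length_cons, List.length_nil]
      ring
  omega

theorem poly_le (p : Polynomial ℕ) : ∃ c : ℕ, ∀ n, p.eval n ≤ c * (n + 1) ^ c := by
  induction p using Polynomial.induction_on' with
  | add p q hp hq =>
    obtain ⟨a, ha⟩ := hp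
    obtain ⟨b, hb⟩ := hq
    refine ⟨a + b, fun n => ?_⟩
    rw [Polynomial.eval_add, add_mul]
    exact Nat.add_le_add ((ha n).trans (Nat.mul_le_mul_left _ (Nat.pow_le_pow_right (by omega)
      (by omega)))) ((hb n).trans (Nat.mul_le_mul_left _ (Nat.pow_le_pow_right (by omega)
      (by omega))))
  | monomial k a =>
    refine ⟨a + k, fun n => ?_⟩
    rw [Polynomial.eval_monomial]
    exact Nat.mul_le_mul (by omega) ((Nat.pow_le_pow_left (Nat.le_succ n) k).trans
      (Nat.pow_le_pow_right (by omega) (by omega)))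

theorem large (Q : Polynomial ℕ) (a : ℕ) : ∃ n, a ≤ n ∧ Q.eval n + 1 < 2 ^ (n / 8) := by
  obtain ⟨c, hc⟩ := poly_le Q
  have h1 : Filter.Tendsto (fun m : ℕ => (m : ℝ) ^ c / (2 : ℝ) ^ m) Filter.atTop (nhds 0) :=
    tendsto_pow_const_div_const_pow_of_one_lt c (by norm_num)
  have h2 : ∀ᶠ m : ℕ in Filter.atTop,
      (m : ℝ) ^ c / (2 : ℝ) ^ m < 1 / ((c * 9 ^ c + 1 : ℕ) : ℝ) :=
    h1.eventually_lt_const (by positivity)
  obtain ⟨m, hm, hm1⟩ := (h2.and (Filter.eventually_ge_atTop (a + 1))).exists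
  refine ⟨8 * m, by omega, ?_⟩
  rw [Nat.mul_div_cancel_left m (by norm_num)]
  have h3 : ((c * 9 ^ c + 1 : ℕ) : ℝ) * (m : ℝ) ^ c < (2 : ℝ) ^ m := by
    rw [div_lt_div_iff₀ (by positivity) (by positivity)] at hm
    linarith
  have h4 : (c * 9 ^ c + 1) * m ^ c < 2 ^ m := by exact_mod_cast h3
  refine lt_of_le_of_lt ?_ h4
  have h5 : (8 * m + 1) ^ c ≤ 9 ^ c * m ^ c := by
    rw [← mul_pow]
    exact Nat.pow_le_pow_left (by omega) c
  have h6 : 1 ≤ m ^ c := Nat.one_le_pow _ _ (by omega)
  calc Q.eval (8 * m) + 1 ≤ c * (8 * m + 1) ^ c + 1 := Nat.add_le_add_right (hc _) 1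
    _ ≤ c * (9 ^ c * m ^ c) + m ^ c := Nat.add_le_add (Nat.mul_le_mul_left _ h5) h6
    _ = (c * 9 ^ c + 1) * m ^ c := by ring

/-- The exponent of the bound for the length of the questions. -/
def KK (k : ℕ) : ℕ := (k + 1) * k + k + 2

theorem size_bound (k c m n : ℕ) (hn : (10 + 3 * c) + m * (c * (10 + 3 * c) ^ k) ≤ n + 2) (Z : ℕ)
    (hZ : Z ≤ 10 * n + 7 + 3 * (c * (n + 1) ^ k)) :
    Z + m * (c * (Z + 1) ^ k) ≤ (n + 2) ^ KK k := by
  have h1 : Z + 1 ≤ (10 + 3 * c) * (n + 2) ^ (k + 1) := by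
    have h2 : 1 ≤ (n + 2) ^ k := Nat.one_le_pow _ _ (by omega)
    have h3 : (n + 1) ^ k ≤ (n + 2) ^ k := Nat.pow_le_pow_left (by omega) k
    have h4 : (n + 1) ^ k ≤ (n + 2) ^ (k + 1) :=
      h3.trans (Nat.pow_le_pow_right (by omega) (by omega))
    have h5 : n + 2 ≤ (n + 2) ^ (k + 1) := by
      calc n + 2 = (n + 2) ^ 1 := (pow_one _).symm
        _ ≤ _ := Nat.pow_le_pow_right (by omega) (by omega)
    have h6 : c * (n + 1) ^ k ≤ c * (n + 2) ^ (k + 1) := Nat.mul_le_mul_left _ h4
    have h7 : (10 + 3 * c) * (n + 2) ^ (k + 1) =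
        10 * (n + 2) ^ (k + 1) + 3 * (c * (n + 2) ^ (k + 1)) := by ring
    omega
  have h2 : (Z + 1) ^ k ≤ (10 + 3 * c) ^ k * (n + 2) ^ ((k + 1) * k) := by
    rw [pow_mul, ← mul_pow]
    exact Nat.pow_le_pow_left h1 k
  have h3 : (n + 2) ^ ((k + 1) * k) ≤ (n + 2) ^ ((k + 1) * k + k + 1) :=
    Nat.pow_le_pow_right (by omega) (by omega)
  have h4 : (n + 2) ^ (k + 1) ≤ (n + 2) ^ ((k + 1) * k + k + 1) :=
    Nat.pow_le_pow_right (by omega) (by omega)
  have h5 : m * (c * (Z + 1) ^ k) ≤
      m * (c * (10 + 3 * c) ^ k) * (n + 2) ^ ((k + 1) * k + k + 1) := by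
    calc m * (c * (Z + 1) ^ k) ≤ m * (c * ((10 + 3 * c) ^ k * (n + 2) ^ ((k + 1) * k))) :=
          Nat.mul_le_mul_left _ (Nat.mul_le_mul_left _ h2)
      _ = m * (c * (10 + 3 * c) ^ k) * (n + 2) ^ ((k + 1) * k) := by ring
      _ ≤ _ := Nat.mul_le_mul_left _ h3
  have h6 : Z ≤ (10 + 3 * c) * (n + 2) ^ ((k + 1) * k + k + 1) :=
    (by omega : Z ≤ (10 + 3 * c) * (n + 2) ^ (k + 1)).trans (Nat.mul_le_mul_left _ h4)
  calc Z + m * (c * (Z + 1) ^ k)
      ≤ (10 + 3 * c) * (n + 2) ^ ((k + 1) * k + k + 1) +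
        m * (c * (10 + 3 * c) ^ k) * (n + 2) ^ ((k + 1) * k + k + 1) := Nat.add_le_add h6 h5
    _ = ((10 + 3 * c) + m * (c * (10 + 3 * c) ^ k)) * (n + 2) ^ ((k + 1) * k + k + 1) := by ring
    _ ≤ (n + 2) * (n + 2) ^ ((k + 1) * k + k + 1) := Nat.mul_le_mul_right _ hn
    _ = (n + 2) ^ KK k := by unfold KK; ring

theorem finite_le (S : Set (List Bool)) (N : ℕ) : {x | x ∈ S ∧ x.length ≤ N}.Finite :=
  (List.finite_length_le Bool N).subset fun _ hx => hx.2

theorem diag (k : ℕ) {S : Set (List Bool)} {V : List Bool → List Bool} {pS pC : Polynomial ℕ}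
    (hS : ∀ x, x ∈ S ↔ ∃ w : List Bool, w.length ≤ pS.eval x.length ∧ V (pairBits x w) = [true])
    (hC : ∀ n, {x | x ∈ S ∧ x.length ≤ n}.ncard ≤ pC.eval n) (β i : Bool)
    {D : List Bool → List Bool} {c : ℕ} {adv : ℕ → List Bool} (hD : InTime k c D)
    (hadv : ∀ n, 4 * (adv n).length ≤ n) (hβ : β = true ∨ ∀ n, adv n = []) :
    ¬ ∀ x, x ∉ AL k (KK k) V pS pC β ↔ ∃ w : List Bool, w.length ≤ c * (x.length + 1) ^ k ∧
      run D S (inp i x (adv x.length) w) (c * (x.length + 1) ^ k) [] = some [i] := by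
  classical
  intro hx
  obtain ⟨M, hM⟩ := hD
  obtain ⟨cd, m, hcd⟩ := code_of_tm M
  obtain ⟨e, -, he⟩ := exists_mE cd 0
  obtain ⟨n, hn, hn2⟩ := large (pC.comp ((Polynomial.X + Polynomial.C 2) ^ KK k))
    (8 * (5 + e + c) + ((10 + 3 * c) + m * (c * (10 + 3 * c) ^ k)))
  simp only [Polynomial.eval_comp, Polynomial.eval_add, Polynomial.eval_C, Polynomial.eval_X,
    Polynomial.eval_pow] at hn2
  obtain ⟨N, hN⟩ : ∃ N, N = (n + 2) ^ KK k := ⟨_, rfl⟩
  obtain ⟨R, hR⟩ : ∃ R, R = c * (n + 1) ^ k := ⟨_, rfl⟩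
  obtain ⟨cs, hcs⟩ : ∃ cs, cs = {x | x ∈ S ∧ x.length ≤ N}.ncard := ⟨_, rfl⟩
  have hcb : (str cs).length ≤ n / 8 := by
    have h1 := le_idx (str cs)
    rw [idx_str] at h1
    have h2 := hC N
    rw [← hcs] at h2
    rw [← hN] at hn2
    have h3 : 2 ^ (str cs).length < 2 ^ (n / 8) := by omega
    exact ((Nat.pow_lt_pow_iff_right (by norm_num)).1 h3).le
  have hla := hadv n
  obtain ⟨y, hy⟩ : ∃ y, y = mk i e c (str cs) (adv n)
    (n - (5 + e + c + 2 * (str cs).length + 2 * (adv n).length)) := ⟨_, rfl⟩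
  have hlen : y.length = n := by
    rw [hy, mk_length]
    omega
  have hpar : par y = (e, c, str cs, (adv n).length, adv n,
      List.replicate (n - (5 + e + c + 2 * (str cs).length + 2 * (adv n).length)) false) := by
    rw [hy, par_mk]
  have hhd : y.headD false = i := by rw [hy]; rfl
  -- the lengths of the inputs of `D`
  have hz : ∀ w a : List Bool, w.length ≤ R → a.length ≤ R →
      (pairBits (inp i y (adv n) w) a).length ≤ 10 * n + 7 + 3 * R := by
    intro w a hw ha
    rw [pairBits_length]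
    unfold inp
    cases i with
    | true =>
      simp only [if_true]
      rw [pairBits_length, pairBits_length, hlen]
      omega
    | false =>
      simp only [Bool.false_eq_true, if_false]
      omega
  have hZ : ∀ w a : List Bool, w.length ≤ R → a.length ≤ R →
      (pairBits (inp i y (adv n) w) a).length +
        m * M.time (pairBits (inp i y (adv n) w) a).length ≤ N := by
    intro w a hw ha
    have h1 := hz w a hw ha
    rw [hR] at h1
    have h2 := size_bound k c m n (by omega) _ h1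
    rw [← hN] at h2
    exact (Nat.add_le_add_left (Nat.mul_le_mul_left m (hM _)) _).trans h2
  have hgv : ∀ w a : List Bool, w.length ≤ R → a.length ≤ R →
      gv (mE e) (pairBits (inp i y (adv n) w) a) N = D (pairBits (inp i y (adv n) w) a) := by
    intro w a hw ha
    unfold gv
    rw [he, hcd _ N (by have := hZ w a hw ha; omega)]
    rfl
  have hq : ∀ w a : List Bool, w.length ≤ R → a.length ≤ R → ∀ q,
      D (pairBits (inp i y (adv n) w) a) = false :: q → q.length ≤ N := by
    intro w a hw ha q hq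
    have h1 := U_len (hcd (pairBits (inp i y (adv n) w) a) _ le_rfl)
    have h2 := hZ w a hw ha
    simp only [id] at h1
    rw [hq, List.length_cons] at h1
    omega
  -- the lists of all elements
  have hlist : ∀ L : List (List Bool), L.Nodup → L.length = cs → (∀ s ∈ L, s ∈ S ∧ s.length ≤ N) →
      ∀ q : List Bool, q.length ≤ N → ((L.any fun s => s == q) = true ↔ q ∈ S) := by
    intro L h1 h2 h3 q hq
    have hsub : (L.toFinset : Set (List Bool)) ⊆ {x | x ∈ S ∧ x.length ≤ N} := by
      intro s hs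
      exact h3 s (List.mem_toFinset.1 hs)
    have hcard : {x | x ∈ S ∧ x.length ≤ N}.ncard ≤ (L.toFinset : Set (List Bool)).ncard := by
      rw [Set.ncard_coe_finset, List.toFinset_card_of_nodup h1, h2, hcs]
    have heq := Set.eq_of_subset_of_ncard_le hsub hcard (finite_le S N)
    rw [List.any_eq_true]
    constructor
    · rintro ⟨s, hs, h⟩
      have : s = q := by simpa using h
      rw [← this]
      exact (h3 s hs).1
    · intro h
      refine ⟨q, ?_, by simp⟩
      have : q ∈ (L.toFinset : Set (List Bool)) := by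
        rw [heq]
        exact ⟨h, hq⟩
      exact List.mem_toFinset.1 this
  have hacc : ∀ (L : List (List Bool)) (w : List Bool), L.Nodup → L.length = cs →
      (∀ s ∈ L, s ∈ S ∧ s.length ≤ N) → w.length ≤ R →
      (acc (mE e) (inp i y (adv n) w) L N i R = true ↔
        run D S (inp i y (adv n) w) R [] = some [i]) := by
    intro L w h1 h2 h3 hw
    refine acc_iff (fun a ha => hgv w a hw ha) fun a ha q hd => ?_
    exact hlist L h1 h2 h3 q (hq w a hw ha q hd)
  have key := hx y
  rw [hlen, ← hR] at key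
  by_cases hmem : y ∈ AL k (KK k) V pS pC β
  · obtain ⟨l, w, ht⟩ := hmem
    refine (key.2 ?_) ⟨l, w, ht⟩
    unfold test at ht
    rw [hpar, hhd, hlen, ← hN] at ht
    simp only at ht
    rw [← hR] at ht
    simp only [Bool.and_eq_true, decide_eq_true_eq, List.all_eq_true, nd_iff, beq_iff_eq] at ht
    obtain ⟨h1, h2, -, h4, h5, -, -, h8⟩ := ht
    have h9 : l.length = cs := by
      have := congrArg idx h1
      rw [idx_str, idx_str] at this
      exact this.symm
    refine ⟨w, h5, (hacc _ w h2 (by rw [List.length_map, h9]) ?_ h5).1 h8⟩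
    intro s hs
    rw [List.mem_map] at hs
    obtain ⟨p, hp, rfl⟩ := hs
    obtain ⟨ha, hb, hc⟩ := h4 p hp
    exact ⟨(hS p.1).2 ⟨p.2, hb, hc⟩, ha⟩
  · obtain ⟨w, hw, hrun⟩ := key.1 hmem
    apply hmem
    -- the list of all elements with witnesses
    choose! v hv1 hv2 using fun x => (hS x).1
    obtain ⟨L, hL⟩ : ∃ L : List (List Bool), L = (finite_le S N).toFinset.toList := ⟨_, rfl⟩
    have hL1 : L.Nodup := by rw [hL]; exact Finset.nodup_toList _
    have hL2 : L.length = cs := by
      rw [hL, Finset.length_toList, hcs, Set.ncard_eq_toFinset_card _ (finite_le S N)]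
    have hL3 : ∀ s ∈ L, s ∈ S ∧ s.length ≤ N := by
      intro s hs
      rw [hL, Finset.mem_toList, Set.Finite.mem_toFinset] at hs
      exact hs
    have hmap : (L.map fun s => (s, v s)).map (fun p => p.1) = L := by
      rw [List.map_map]
      exact List.map_id L
    refine ⟨L.map fun s => (s, v s), w, ?_⟩
    unfold test
    rw [hpar, hhd, hlen, ← hN, hmap]
    simp only
    rw [← hR]
    simp only [Bool.and_eq_true, decide_eq_true_eq, List.all_eq_true, nd_iff, beq_iff_eq]
    refine ⟨by rw [List.length_map, hL2], hL1, ?_, ?_, hw, ?_, ?_,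
      (hacc L w hL1 hL2 hL3 hw).2 hrun⟩
    · rw [List.length_map, hL2, hcs]
      exact hC N
    · intro p hp
      rw [List.mem_map] at hp
      obtain ⟨s, hs, rfl⟩ := hp
      obtain ⟨h1, h2⟩ := hL3 s hs
      exact ⟨h2, hv1 s h1, hv2 s h1⟩
    · rw [List.length_replicate]
      exact hy
    · rcases hβ with hβ | hβ
      · rw [hβ]
        rfl
      · rw [hβ]
        simp

/-- The diagonal language without advice is sparse. -/
theorem AL_sparse (k K : ℕ) (V : List Bool → List Bool) (pS pC : Polynomial ℕ) :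
    ∃ P : Polynomial ℕ, ∀ n, {y | y ∈ AL k K V pS pC false ∧ y.length ≤ n}.ncard ≤ P.eval n := by
  refine ⟨Polynomial.C 2 * (Polynomial.X + Polynomial.C 1) * (Polynomial.X + Polynomial.C 1) *
    (Polynomial.X + Polynomial.C 1) *
    (pC.comp ((Polynomial.X + Polynomial.C 2) ^ K) + Polynomial.C 1), fun n => ?_⟩
  simp only [Polynomial.eval_add, Polynomial.eval_mul, Polynomial.eval_C, Polynomial.eval_X,
    Polynomial.eval_pow, Polynomial.eval_comp]
  obtain ⟨T, hT⟩ : ∃ T : Finset (Bool × ℕ × ℕ × ℕ × ℕ),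
    T = Finset.univ ×ˢ (Finset.range (n + 1) ×ˢ (Finset.range (n + 1) ×ˢ (Finset.range (n + 1) ×ˢ
      Finset.range (pC.eval ((n + 2) ^ K) + 1)))) := ⟨_, rfl⟩
  have hsub : {y | y ∈ AL k K V pS pC false ∧ y.length ≤ n} ⊆
      ((T.image fun t => mk t.1 t.2.1 t.2.2.1 (str t.2.2.2.2) [] t.2.2.2.1 :
        Finset (List Bool)) : Set (List Bool)) := by
    rintro y ⟨⟨l, w, ht⟩, hy⟩
    unfold test at ht
    simp only [Bool.and_eq_true, decide_eq_true_eq, List.all_eq_true, beq_iff_eq,
      Bool.or_eq_true, Bool.false_eq_true, false_or] at ht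
    obtain ⟨h1, -, h3, -, -, h6, h7, -⟩ := ht
    generalize hi : y.headD false = i at *
    generalize he : (par y).1 = e at *
    generalize hc : (par y).2.1 = c at *
    generalize ha : (par y).2.2.2.2.1 = a at *
    generalize hp : (par y).2.2.2.2.2.length = p at *
    rw [h1] at h6
    have h8 : a = [] := by
      have h9 := congrArg par h6
      rw [par_mk] at h9
      have h10 : (par y).2.2.2.1 = a.length := by rw [h9]
      rw [h7] at h10
      exact List.length_eq_zero_iff.1 h10.symm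
    subst h8
    have hlen := congrArg List.length h6
    rw [mk_length] at hlen
    rw [Finset.coe_image]
    refine ⟨(i, e, c, p, l.length), ?_, h6.symm⟩
    rw [hT]
    have h9 : l.length ≤ pC.eval ((n + 2) ^ K) :=
      h3.trans (eval_mono' pC (Nat.pow_le_pow_left (by omega) K))
    simp only [Finset.coe_product, Set.mem_prod, Finset.mem_coe, Finset.mem_univ, true_and,
      Finset.mem_range]
    refine ⟨by omega, by omega, by omega, by omega⟩
  refine (Set.ncard_le_ncard hsub (Finset.finite_toSet _)).trans ?_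
  rw [Set.ncard_coe_finset]
  refine Finset.card_image_le.trans ?_
  rw [hT]
  simp only [Finset.card_product, Finset.card_univ, Fintype.card_bool, Finset.card_range]
  apply le_of_eq
  ring

end Pool.Agent.V8H41.SP
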