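import Pool.Agent.V8H41.SP.Test

/-!
# The diagonal language is in `NP`
-/

set_option autoImplicit false

namespace Pool.Agent.V8H41.SP

open Turing Pool.Agent.H583R2
open Pool.Agent.NPC (pairBits InNP PolyTime)

theorem eval_mono' (p : Polynomial ℕ) {m n : ℕ} (h : m ≤ n) : p.eval m ≤ p.eval n := by
  induction p using Polynomial.induction_on' with
  | add p q hp hq =>
    rw [Polynomial.eval_add, Polynomial.eval_add]
    exact Nat.add_le_add hp hq
  | monomial k c =>
    rw [Polynomial.eval_monomial, Polynomial.eval_monomial]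
    exact Nat.mul_le_mul_left _ (Nat.pow_le_pow_left h k)

/-- The diagonal language. -/
def AL (k K : ℕ) (V : List Bool → List Bool) (pS pC : Polynomial ℕ) (β : Bool) :
    Set (List Bool) :=
  {y | ∃ l w, test k K V pS pC β y l w = true}

/-- Decoding of certificates. -/
def decC (s : List Bool) : Cert :=
  decP (decL (decP (decL decB) (decL decB))) (decL decB) (parse s)

theorem pf_decC {α : Type} [TEnc α] {s : α → List Bool} (hs : PF s) : PF (fun a => decC (s a)) := by
  have h1 : PF (fun t : Tr => decL decB t) := PF.decL (PF.decB PF.id) PF.id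
  have h2 : PF (fun t : Tr => decP (decL decB) (decL decB) t) := PF.decP h1 h1 PF.id
  exact PF.decP (PF.decL h2 PF.id) h1 (PF.parse hs)

theorem decC_ser (c : Cert) : decC (ser (enc c)) = c := by
  unfold decC
  have h := parse_ser (enc c) []
  rw [List.append_nil] at h
  rw [h]
  exact decP_enc (decL_enc (decP_enc (decL_enc decB_enc) (decL_enc decB_enc)))
    (decL_enc decB_enc) c

theorem dE_le (z : List Bool) : dE z ≤ z.length := by
  unfold dE
  induction z with
  | nil => exact le_rfl
  | cons b z ih =>
    cases b with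
    | false => exact Nat.zero_le _
    | true =>
      show (stripT z).1 + 1 ≤ z.length + 1
      omega

theorem par_c_le (y : List Bool) : (par y).2.1 ≤ y.length := by
  show dE (tk y.tail).2 ≤ y.length
  refine (dE_le _).trans ?_
  show (y.tail.drop _).length ≤ _
  rw [List.length_drop, List.length_tail]
  omega

theorem cert_size {k K : ℕ} {V : List Bool → List Bool} {pS pC : Polynomial ℕ}
    {β : Bool} {y : List Bool} {l : List (List Bool × List Bool)} {w : List Bool}
    (h : test k K V pS pC β y l w = true) :
    sz ((l, w) : Cert) ≤ 1 + (pC.eval ((y.length + 2) ^ K) * (4 * (y.length + 2) ^ K +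
      4 * pS.eval ((y.length + 2) ^ K) + 4) + 1) + (4 * (y.length * (y.length + 1) ^ k) + 1) := by
  unfold test at h
  simp only [Bool.and_eq_true, decide_eq_true_eq, List.all_eq_true] at h
  obtain ⟨-, -, h1, h2, h3, -⟩ := h
  have h6 : w.length ≤ y.length * (y.length + 1) ^ k :=
    h3.trans (Nat.mul_le_mul_right _ (par_c_le y))
  generalize (y.length + 2) ^ K = N at *
  generalize y.length * (y.length + 1) ^ k = R at *
  have h4 : sz l ≤ l.length * ((1 + (4 * N + 1) + (4 * pS.eval N + 1)) + 1) + 1 := by
    refine sz_list_le l _ fun p hp => ?_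
    obtain ⟨h5, h6, -⟩ := h2 p hp
    have h7 := eval_mono' pS h5
    have h8 := sz_str_le p.1
    have h9 := sz_str_le p.2
    rw [sz_prod]
    omega
  have h5 := sz_str_le w
  have h7 : l.length * ((1 + (4 * N + 1) + (4 * pS.eval N + 1)) + 1) ≤
      pC.eval N * (4 * N + 4 * pS.eval N + 4) := by
    refine Nat.mul_le_mul h1 ?_
    omega
  rw [sz_pair]
  omega

/-- The bound for the certificates. -/
noncomputable def bndP (k K : ℕ) (pS pC : Polynomial ℕ) : Polynomial ℕ :=
  Polynomial.C 1 + (pC.comp ((Polynomial.X + Polynomial.C 2) ^ K) *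
    (Polynomial.C 4 * (Polynomial.X + Polynomial.C 2) ^ K +
      Polynomial.C 4 * pS.comp ((Polynomial.X + Polynomial.C 2) ^ K) +
      Polynomial.C 4) + Polynomial.C 1) +
    (Polynomial.C 4 * (Polynomial.X * (Polynomial.X + Polynomial.C 1) ^ k) + Polynomial.C 1)

theorem bndP_eval (k K : ℕ) (pS pC : Polynomial ℕ) (n : ℕ) :
    (bndP k K pS pC).eval n = 1 + (pC.eval ((n + 2) ^ K) * (4 * (n + 2) ^ K +
      4 * pS.eval ((n + 2) ^ K) + 4) + 1) + (4 * (n * (n + 1) ^ k) + 1) := by
  unfold bndP
  simp only [Polynomial.eval_add, Polynomial.eval_mul, Polynomial.eval_C, Polynomial.eval_X,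
    Polynomial.eval_pow, Polynomial.eval_comp]

theorem ser_len (c : Cert) : (ser (enc c)).length = sz c := rfl

attribute [local irreducible] test in
set_option maxHeartbeats 400000 in
theorem AL_inNP (k K : ℕ) {V : List Bool → List Bool} (hV : PF V) (pS pC : Polynomial ℕ)
    (β : Bool) : InNP (AL k K V pS pC β) := by
  refine ⟨fun z => [test k K V pS pC β (up z).1 (decC (up z).2).1 (decC (up z).2).2],
    bndP k K pS pC, ?_, ?_⟩
  · refine polyTime_of_pf (PF.cons ?_ (PF.const []))
    have h1 : PF (fun z : List Bool => up z) := pf_up (PF.id (α := List Bool))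
    have h2 : PF (fun z : List Bool => ((up z).1, decC (up z).2)) :=
      PF.pair (PF.fst' h1) (pf_decC (PF.snd' h1))
    have h3 : PF (fun z : List Bool => (fun p : List Bool × Cert =>
        test k K V pS pC β p.1 p.2.1 p.2.2) ((up z).1, decC (up z).2)) :=
      PF.comp (g := fun p : List Bool × Cert => test k K V pS pC β p.1 p.2.1 p.2.2)
        (f := fun z : List Bool => ((up z).1, decC (up z).2)) (pf_test k K hV pS pC β) h2
    exact h3
  · intro y
    constructor
    · rintro ⟨l, w, h⟩
      refine ⟨ser (enc ((l, w) : Cert)), ?_, ?_⟩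
      · rw [ser_len, bndP_eval]
        exact cert_size h
      · beta_reduce
        rw [up_pairBits]
        simp only [decC_ser]
        rw [h]
    · rintro ⟨s, -, h⟩
      beta_reduce at h
      rw [up_pairBits] at h
      exact ⟨_, _, (List.cons.inj h).1⟩

end Pool.Agent.V8H41.SP
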