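import Pool.Agent.V8H41.SP.Base

/-!
# Simulation of oracle computations, and the test
-/

set_option autoImplicit false

namespace Pool.Agent.V8H41.SP

open Turing Pool.Agent.H583R2
open Pool.Agent.NPC (pairBits InNP PolyTime)

open Classical in
/-- The output of the oracle computation with next-action function `D` and oracle `S` on input `x`
within `n` further rounds, when the answers received so far are `a`. -/
noncomputable def run (D : List Bool → List Bool) (S : Set (List Bool)) (x : List Bool) :
    ℕ → List Bool → Option (List Bool)
  | 0, _ => none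
  | n + 1, a =>
    match D (pairBits x a) with
    | [] => some []
    | true :: z => some z
    | false :: q => run D S x n (a ++ [decide (q ∈ S)])

/-- One round of the simulation. -/
def sst (cd : Code) (inp : List Bool) (L : List (List Bool)) (N : ℕ) (i : Bool)
    (st : List Bool × Option Bool) : List Bool × Option Bool :=
  if st.2.isSome then st else
  match gv cd (pairBits inp st.1) N with
  | [] => (st.1, some false)
  | b :: z => if b then (st.1, some (z == [i])) else (st.1 ++ [L.any fun s => s == z], none)

/-- The simulation. -/
def acc (cd : Code) (inp : List Bool) (L : List (List Bool)) (N : ℕ) (i : Bool) (R : ℕ) : Bool :=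
  ((sst cd inp L N i)^[R] ([], none)).2.getD false

theorem sst_some {cd : Code} {inp : List Bool} {L : List (List Bool)} {N : ℕ} {i : Bool}
    (n : ℕ) (a : List Bool) (b : Bool) : (sst cd inp L N i)^[n] (a, some b) = (a, some b) := by
  induction n with
  | zero => rfl
  | succ n ih =>
    rw [Function.iterate_succ_apply]
    exact ih

theorem acc_iff {cd : Code} {inp : List Bool} {L : List (List Bool)} {N : ℕ} {i : Bool} {R : ℕ}
    {D : List Bool → List Bool} {S : Set (List Bool)}
    (hD : ∀ a : List Bool, a.length ≤ R → gv cd (pairBits inp a) N = D (pairBits inp a))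
    (hL : ∀ a : List Bool, a.length ≤ R → ∀ q, D (pairBits inp a) = false :: q →
      ((L.any fun s => s == q) = true ↔ q ∈ S)) :
    acc cd inp L N i R = true ↔ run D S inp R [] = some [i] := by
  classical
  have key : ∀ (n : ℕ) (a : List Bool), a.length + n ≤ R →
      (((sst cd inp L N i)^[n] (a, none)).2.getD false = true ↔ run D S inp n a = some [i]) := by
    intro n
    induction n with
    | zero =>
      intro a _
      simp [run]
    | succ n ih =>
      intro a ha
      rw [Function.iterate_succ_apply]
      have h1 := hD a (by omega)
      have h2 : sst cd inp L N i (a, none) = match D (pairBits inp a) with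
          | [] => (a, some false)
          | b :: z => if b then (a, some (z == [i])) else (a ++ [L.any fun s => s == z], none) := by
        unfold sst
        rw [← h1]
        rfl
      have h3 : run D S inp (n + 1) a = match D (pairBits inp a) with
          | [] => some []
          | true :: z => some z
          | false :: q => run D S inp n (a ++ [decide (q ∈ S)]) := rfl
      rw [h2, h3]
      rcases hd : D (pairBits inp a) with _ | ⟨b, z⟩
      · simp only
        rw [sst_some]
        simp
      · cases b with
        | true =>
          simp only [if_true]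
          rw [sst_some]
          simp
        | false =>
          simp only [Bool.false_eq_true, if_false]
          have h4 : (L.any fun s => s == z) = decide (z ∈ S) := by
            rw [Bool.eq_iff_iff, hL a (by omega) z hd]
            simp
          rw [h4]
          exact ih _ (by simp only [List.length_append, List.length_singleton]; omega)
  exact key R [] (by simp)

section
variable {α : Type} [TEnc α]

theorem pf_acc {cd : α → Code} {inp : α → List Bool} {L : α → List (List Bool)} {N R : α → ℕ}
    {i : α → Bool} (hcd : PF cd) (hinp : PF inp) (hL : PF L) (hN : PF N) (hi : PF i) (hR : PF R) :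
    PF (fun a => acc (cd a) (inp a) (L a) (N a) (i a) (R a)) := by
  have hst : PF (fun p : α × (List Bool × Option Bool) => p.2.1) := PF.fst' PF.snd
  have h1 : PF (fun p : α × (List Bool × Option Bool) =>
      gv (cd p.1) (pairBits (inp p.1) p.2.1) (N p.1)) :=
    pf_gv (hcd.comp PF.fst) (pf_pairBits (hinp.comp PF.fst) hst) (hN.comp PF.fst)
  have h2 : PF (fun q : (α × (List Bool × Option Bool)) × Bool × List Bool =>
      if q.2.1 then (q.1.2.1, some (q.2.2 == [i q.1.1]))
      else (q.1.2.1 ++ [(L q.1.1).any fun s => s == q.2.2], none)) := by
    have hq : PF (fun q : (α × (List Bool × Option Bool)) × Bool × List Bool => q.1.2.1) :=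
      PF.fst' (PF.snd' PF.fst)
    refine PF.ite (PF.fst' PF.snd) (PF.pair hq (PF.mkSome (PF.beqStr (PF.snd' PF.snd)
      (PF.cons (hi.comp (PF.fst' PF.fst)) (PF.const []))))) (PF.pair (PF.append hq (PF.cons
        (PF.any (f := fun (q : (α × (List Bool × Option Bool)) × Bool × List Bool) s =>
          s == q.2.2) (hL.comp (PF.fst' PF.fst)) (PF.beqStr PF.snd (PF.snd' (PF.snd' PF.fst))))
        (PF.const []))) (PF.const none))
  have h3 : PF (fun p : α × (List Bool × Option Bool) =>
      sst (cd p.1) (inp p.1) (L p.1) (N p.1) (i p.1) p.2) := by
    refine (PF.ite (PF.isSome (PF.snd' PF.snd)) PF.snd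
      (PF.listCase (g := fun p : α × (List Bool × Option Bool) => (p.2.1, some false))
        (h := fun p b z => if b then (p.2.1, some (z == [i p.1]))
          else (p.2.1 ++ [(L p.1).any fun s => s == z], none)) h1
        (PF.pair hst (PF.const (some false))) h2)).congr ?_
    intro p
    unfold sst
    generalize gv (cd p.1) (pairBits (inp p.1) p.2.1) (N p.1) = r
    cases r <;> rfl
  have h4 := PF.iterateAdd (n := R) (s := fun _ : α => (([] : List Bool), (none : Option Bool)))
    (f := fun a st => sst (cd a) (inp a) (L a) (N a) (i a) st) hR (PF.const _) h3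
    (inc := fun _ => 8) (bnd := fun _ => 0) (PB.const 8) (PB.const 0) (by
      rintro a ⟨s, o⟩
      refine le_max_of_le_left ?_
      cases o with
      | some b =>
        show sz (s, some b) ≤ _
        omega
      | none =>
        have h : ∀ r : List Bool, sz (match r with
            | [] => (s, some false)
            | b :: z => if b then (s, some (z == [i a]))
              else (s ++ [(L a).any fun s => s == z], none)) ≤ sz (s, (none : Option Bool)) + 8 := by
          intro r
          rcases r with _ | ⟨b, z⟩
          · simp only [sz_pair, sz_some, sz_false, sz_none]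
            omega
          · cases b with
            | true =>
              have := sz_bool (z == [i a])
              simp only [if_true, sz_pair, sz_some, sz_none]
              omega
            | false =>
              have h1 := sz_bool ((L a).any fun s => s == z)
              have h2 := sz_append s [(L a).any fun s => s == z]
              rw [sz_cons, sz_nil] at h2
              simp only [Bool.false_eq_true, if_false, sz_pair, sz_none]
              omega
        exact h _)
  exact PF.getD (PF.snd' h4) (PF.const false)

/-- No two elements of the list are equal. -/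
def nd (L : List (List Bool)) : Bool :=
  (List.range L.length).all fun j => !((L.take j).any fun s => s == L.getD j [])

theorem nd_iff (L : List (List Bool)) : nd L = true ↔ L.Nodup := by
  unfold nd
  rw [List.all_eq_true]
  constructor
  · intro h
    rw [List.nodup_iff_getElem?_ne_getElem?]
    intro i j hij hj hne
    have h1 := h j (List.mem_range.2 hj)
    rw [Bool.not_eq_true', List.any_eq_false] at h1
    have hi : i < L.length := hij.trans hj
    refine h1 L[i] ?_ ?_
    · rw [List.mem_take_iff_getElem]
      exact ⟨i, by omega, rfl⟩
    · rw [List.getD_eq_getElem _ _ hj]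
      rw [List.getElem?_eq_getElem hi, List.getElem?_eq_getElem hj, Option.some.injEq] at hne
      rw [hne]
      simp
  · intro h j hj
    rw [List.mem_range] at hj
    rw [Bool.not_eq_true', List.any_eq_false]
    intro s hs h1
    rw [List.mem_take_iff_getElem] at hs
    obtain ⟨i, hi, rfl⟩ := hs
    rw [List.getD_eq_getElem _ _ hj] at h1
    have h2 : L[i] = L[j] := by simpa using h1
    have := (List.Nodup.getElem_inj_iff h).1 h2
    omega

theorem pf_nd {L : α → List (List Bool)} (hL : PF L) : PF (fun a => nd (L a)) := by
  refine PF.all (f := fun a j => !(((L a).take j).any fun s => s == (L a).getD j []))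
    (PF.range (PF.length hL)) ?_
  refine PF.not (PF.any (f := fun (p : α × ℕ) s => s == (L p.1).getD p.2 [])
    (PF.take PF.snd (hL.comp PF.fst)) ?_)
  exact PF.beqStr PF.snd (PF.listGetD (PF.snd' PF.fst) (hL.comp (PF.fst' PF.fst)) (PF.const []))

/-- A number in unary and the rest. -/
def tk (z : List Bool) : ℕ × List Bool := (dE z, z.drop (dE z + 1))

theorem tk_rep (e : ℕ) (l : List Bool) : tk (List.replicate e true ++ false :: l) = (e, l) := by
  have h : dE (List.replicate e true ++ false :: l) = e := by
    unfold dE
    rw [stripT_rep]
  unfold tk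
  rw [h]
  congr 1
  rw [List.drop_append]
  simp

theorem pf_tk {z : α → List Bool} (hz : PF z) : PF (fun a => tk (z a)) :=
  PF.pair (PF.dE hz) (PF.drop (PF.succ (PF.dE hz)) hz)

end

/-- The parameters in an input: code, constant, number, advice, rest. -/
def par (y : List Bool) : ℕ × ℕ × List Bool × ℕ × List Bool × List Bool :=
  ((tk y.tail).1, (tk (tk y.tail).2).1,
    (tk (tk (tk y.tail).2).2).2.take (tk (tk (tk y.tail).2).2).1,
    (tk ((tk (tk (tk y.tail).2).2).2.drop (tk (tk (tk y.tail).2).2).1)).1,
    (tk ((tk (tk (tk y.tail).2).2).2.drop (tk (tk (tk y.tail).2).2).1)).2.take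
      (tk ((tk (tk (tk y.tail).2).2).2.drop (tk (tk (tk y.tail).2).2).1)).1,
    (tk ((tk (tk (tk y.tail).2).2).2.drop (tk (tk (tk y.tail).2).2).1)).2.drop
      (tk ((tk (tk (tk y.tail).2).2).2.drop (tk (tk (tk y.tail).2).2).1)).1)

/-- An input with given parameters. -/
def mk (i : Bool) (e c : ℕ) (cb adv : List Bool) (pad : ℕ) : List Bool :=
  i :: (List.replicate e true ++ false :: (List.replicate c true ++ false ::
    (List.replicate cb.length true ++ false :: (cb ++ (List.replicate adv.length true ++ false ::
      (adv ++ List.replicate pad false))))))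

theorem par_mk (i : Bool) (e c : ℕ) (cb adv : List Bool) (pad : ℕ) :
    par (mk i e c cb adv pad) = (e, c, cb, adv.length, adv, List.replicate pad false) := by
  unfold par mk
  simp only [List.tail_cons, tk_rep, List.take_left, List.drop_left]

theorem mk_length (i : Bool) (e c : ℕ) (cb adv : List Bool) (pad : ℕ) :
    (mk i e c cb adv pad).length = 5 + e + c + 2 * cb.length + 2 * adv.length + pad := by
  unfold mk
  simp only [List.length_cons, List.length_append, List.length_replicate]
  ring

theorem pf_mk {α : Type} [TEnc α] {i : α → Bool} {e c pad : α → ℕ} {cb adv : α → List Bool}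
    (hi : PF i) (he : PF e) (hc : PF c) (hcb : PF cb) (hadv : PF adv) (hpad : PF pad) :
    PF (fun a => mk (i a) (e a) (c a) (cb a) (adv a) (pad a)) := by
  have h1 : PF (fun a => adv a ++ List.replicate (pad a) false) :=
    PF.append hadv (PF.replicate hpad (PF.const false))
  have h2 : PF (fun a => cb a ++ (List.replicate (adv a).length true ++ false ::
      (adv a ++ List.replicate (pad a) false))) :=
    PF.append hcb (PF.append (PF.replicate (PF.length hadv) (PF.const true))
      (PF.cons (PF.const false) h1))
  exact PF.cons hi (PF.append (PF.replicate he (PF.const true)) (PF.cons (PF.const false)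
    (PF.append (PF.replicate hc (PF.const true)) (PF.cons (PF.const false)
      (PF.append (PF.replicate (PF.length hcb) (PF.const true)) (PF.cons (PF.const false) h2))))))

theorem pf_par : PF par := by
  have h0 : PF (fun y : List Bool => y.tail) := PF.tail PF.id
  have h1 := pf_tk h0
  have h2 := pf_tk (PF.snd' h1)
  have h3 := pf_tk (PF.snd' h2)
  have h4 := pf_tk (PF.drop (PF.fst' h3) (PF.snd' h3))
  exact PF.pair (PF.fst' h1) (PF.pair (PF.fst' h2) (PF.pair (PF.take (PF.fst' h3) (PF.snd' h3))
    (PF.pair (PF.fst' h4) (PF.pair (PF.take (PF.fst' h4) (PF.snd' h4))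
      (PF.drop (PF.fst' h4) (PF.snd' h4))))))

/-- The input of the oracle computation. -/
def inp (i : Bool) (y adv w : List Bool) : List Bool :=
  if i then pairBits (pairBits y adv) w else y

/-- The test. -/
def test (k K : ℕ) (V : List Bool → List Bool) (pS pC : Polynomial ℕ) (β : Bool)
    (y : List Bool) (l : List (List Bool × List Bool)) (w : List Bool) : Bool :=
  ((par y).2.2.1 == str l.length) && (nd (l.map fun p => p.1) &&
  (decide (l.length ≤ pC.eval ((y.length + 2) ^ K)) &&
  ((l.all fun p => decide (p.1.length ≤ (y.length + 2) ^ K) &&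
    (decide (p.2.length ≤ pS.eval p.1.length) && (V (pairBits p.1 p.2) == [true]))) &&
  (decide (w.length ≤ (par y).2.1 * (y.length + 1) ^ k) &&
  ((y == mk (y.headD false) (par y).1 (par y).2.1 (par y).2.2.1 (par y).2.2.2.2.1
    (par y).2.2.2.2.2.length) &&
  ((β || decide ((par y).2.2.2.1 = 0)) &&
  acc (mE (par y).1) (inp (y.headD false) y (par y).2.2.2.2.1 w) (l.map fun p => p.1)
    ((y.length + 2) ^ K) (y.headD false) ((par y).2.1 * (y.length + 1) ^ k)))))))

/-- The certificates. -/
abbrev Cert : Type := List (List Bool × List Bool) × List Bool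

theorem pf_test (k K : ℕ) {V : List Bool → List Bool} (hV : PF V) (pS pC : Polynomial ℕ)
    (β : Bool) : PF (fun p : List Bool × Cert => test k K V pS pC β p.1 p.2.1 p.2.2) := by
  have hy : PF (fun p : List Bool × Cert => p.1) := PF.fst
  have hl : PF (fun p : List Bool × Cert => p.2.1) := PF.fst' PF.snd
  have hw : PF (fun p : List Bool × Cert => p.2.2) := PF.snd' PF.snd
  have hp : PF (fun p : List Bool × Cert => par p.1) := pf_par.comp hy
  have hlen := PF.length hy
  have hN : PF (fun p : List Bool × Cert => (p.1.length + 2) ^ K) :=
    pf_powConst (PF.add hlen (PF.const 2)) K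
  have hR : PF (fun p : List Bool × Cert => (par p.1).2.1 * (p.1.length + 1) ^ k) :=
    PF.mul (PF.fst' (PF.snd' hp)) (pf_powConst (PF.succ hlen) k)
  have hL : PF (fun p : List Bool × Cert => p.2.1.map fun q => q.1) :=
    PF.map (f := fun (_ : List Bool × Cert) (q : List Bool × List Bool) => q.1) hl
      (PF.fst' PF.snd)
  have hi : PF (fun p : List Bool × Cert => p.1.headD false) := PF.headD hy (PF.const false)
  refine PF.and (PF.beqStr (PF.fst' (PF.snd' (PF.snd' hp))) (PF.str (PF.length hl))) ?_
  refine PF.and (pf_nd hL) ?_
  refine PF.and (PF.le (PF.length hl) (pf_eval hN pC)) ?_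
  refine PF.and ?_ ?_
  · refine PF.all (f := fun (p : List Bool × Cert) (q : List Bool × List Bool) =>
      decide (q.1.length ≤ (p.1.length + 2) ^ K) &&
      (decide (q.2.length ≤ pS.eval q.1.length) && (V (pairBits q.1 q.2) == [true]))) hl ?_
    have h1 : PF (fun p : (List Bool × Cert) × List Bool × List Bool => p.2.1) := PF.fst' PF.snd
    have h2 : PF (fun p : (List Bool × Cert) × List Bool × List Bool => p.2.2) := PF.snd' PF.snd
    exact PF.and (PF.le (PF.length h1) (hN.comp PF.fst)) (PF.and (PF.le (PF.length h2)
      (pf_eval (PF.length h1) pS)) (PF.beqStr (hV.comp (pf_pairBits h1 h2)) (PF.const [true])))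
  refine PF.and (PF.le (PF.length hw) hR) ?_
  refine PF.and (PF.beqStr hy (pf_mk hi (PF.fst' hp) (PF.fst' (PF.snd' hp))
    (PF.fst' (PF.snd' (PF.snd' hp))) (PF.fst' (PF.snd' (PF.snd' (PF.snd' (PF.snd' hp)))))
    (PF.length (PF.snd' (PF.snd' (PF.snd' (PF.snd' (PF.snd' hp)))))))) ?_
  refine PF.and (PF.or (PF.const β) (PF.natEq (PF.fst' (PF.snd' (PF.snd' (PF.snd' hp))))
    (PF.const 0))) ?_
  refine pf_acc (PF.mE (PF.fst' hp)) ?_ hL hN hi hR
  exact PF.ite hi (pf_pairBits (pf_pairBits hy
    (PF.fst' (PF.snd' (PF.snd' (PF.snd' (PF.snd' hp)))))) hw) hy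

end Pool.Agent.V8H41.SP
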